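import Mathlib

/-! General lemmas: Noetherian rings glued from two quotients, reduced completions, lengths over
rings with a coefficient field. -/

set_option autoImplicit false

universe u v w

namespace Q43.NH

open IsLocalRing

theorem isNoetherian_restrict {R : Type u} {A : Type v} [CommRing R] [CommRing A]
    [IsNoetherianRing A] [Algebra R A] (h : Function.Surjective (algebraMap R A)) :
    IsNoetherian R A := by
  have : RingHomSurjective (algebraMap R A) := ⟨h⟩
  let f : A →ₛₗ[algebraMap R A] A := ⟨AddHom.id A, by
    intro m x
    change m • x = algebraMap R A m • x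
    rw [algebraMap_smul]⟩
  let e : Submodule R A ≃o Submodule A A :=
    Submodule.orderIsoMapComapOfBijective f Function.bijective_id
  have h1 : WellFoundedGT (Submodule A A) := inferInstance
  have h2 : WellFoundedGT (Submodule R A) := by
    refine ⟨?_⟩
    have := h1.wf
    exact (InvImage.wf e this).mono (fun a b hab => e.lt_iff_lt.2 hab)
  exact isNoetherian_iff'.2 h2

theorem isNoetherianRing_of_pair {R : Type u} {A : Type v} {B : Type w} [CommRing R] [CommRing A]
    [CommRing B] [IsNoetherianRing A] [IsNoetherianRing B] (φ : R →+* A) (ψ : R →+* B)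
    (hφ : Function.Surjective φ) (hψ : Function.Surjective ψ)
    (hinj : ∀ r, φ r = 0 → ψ r = 0 → r = 0) : IsNoetherianRing R := by
  let _ := φ.toAlgebra
  let _ := ψ.toAlgebra
  have : IsNoetherian R A := isNoetherian_restrict hφ
  have : IsNoetherian R B := isNoetherian_restrict hψ
  let f : R →ₗ[R] A × B :=
    { toFun := fun r => (φ r, ψ r)
      map_add' := fun a b => by simp
      map_smul' := fun a b => by
        simp only [smul_eq_mul, map_mul, RingHom.id_apply, Algebra.smul_def]
        rfl }
  refine isNoetherian_of_injective f ?_
  intro a b hab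
  have h1 : φ a = φ b := congrArg Prod.fst hab
  have h2 : ψ a = ψ b := congrArg Prod.snd hab
  have := hinj (a - b) (by rw [map_sub, h1, sub_self]) (by rw [map_sub, h2, sub_self])
  exact sub_eq_zero.1 this

theorem reduced_completion {R : Type u} [CommRing R] (I : Ideal R)
    (h : ∀ (n : ℕ) (r : R), r * r ∈ I ^ (2 * n) → r ∈ I ^ n) :
    IsReduced (AdicCompletion I R) := by
  refine ⟨fun x hx => ?_⟩
  have key : ∀ x : AdicCompletion I R, x * x = 0 → x = 0 := by
    intro x hxx
    refine AdicCompletion.ext_evalₐ (fun n => ?_)
    rw [map_zero]
    obtain ⟨r, hr⟩ := Ideal.Quotient.mk_surjective (AdicCompletion.evalₐ I (2 * n) x)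
    have h1 : Ideal.Quotient.mk (I ^ (2 * n)) (r * r) = 0 := by
      rw [map_mul, hr, ← map_mul, hxx, map_zero]
    have h2 : r ∈ I ^ n := h n r (Ideal.Quotient.eq_zero_iff_mem.1 h1)
    have h3 : AdicCompletion.evalₐ I n x =
        Ideal.Quotient.factor (Ideal.pow_le_pow_right (by omega : n ≤ 2 * n))
          (AdicCompletion.evalₐ I (2 * n) x) := by
      clear hxx hr h1 h2
      induction x using AdicCompletion.induction_on with
      | _ x =>
        rw [AdicCompletion.evalₐ_mk, AdicCompletion.evalₐ_mk, Ideal.Quotient.factor_mk]
        exact (AdicCompletion.Ideal.mk_eq_mk I (by omega : n ≤ 2 * n) x).symm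
    rw [h3, ← hr, Ideal.Quotient.factor_mk, Ideal.Quotient.eq_zero_iff_mem]
    exact h2
  obtain ⟨k, hk⟩ := hx
  have : ∀ k : ℕ, ∀ x : AdicCompletion I R, x ^ (2 ^ k) = 0 → x = 0 := by
    intro k
    induction k with
    | zero => intro x hx; simpa using hx
    | succ k ih =>
      intro x hx
      apply key
      apply ih
      rw [← pow_two, ← pow_mul, ← pow_succ']
      exact hx
  exact this k x (pow_eq_zero_of_le (Nat.lt_two_pow_self).le hk)


/-- Over a local ring `R` with a coefficient field `k` the length over `R` is the length over
`k`. -/
theorem length_eq_of_isFiniteLength {k : Type u} [Field k] {R : Type v} [CommRing R]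
    [IsLocalRing R] [Algebra k R]
    (hk : Function.Surjective (algebraMap k (ResidueField R))) {M : Type w} [AddCommGroup M]
    [Module R M] (hM : IsFiniteLength R M) :
    ∀ [Module k M] [IsScalarTower k R M], Module.length k M = Module.length R M := by
  induction hM with
  | of_subsingleton =>
    intro _ _
    rw [Module.length_eq_zero, Module.length_eq_zero]
  | @of_simple_quotient M _ _ N hs hN ih =>
    intro _ _
    have h1 := Module.length_eq_add_of_exact (R := R) N.subtype N.mkQ N.subtype_injective
      N.mkQ_surjective (LinearMap.exact_subtype_mkQ N)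
    have h2 := Module.length_eq_add_of_exact (R := k) (N.restrictScalars k).subtype
      (N.restrictScalars k).mkQ (Submodule.subtype_injective _)
      (Submodule.mkQ_surjective _) (LinearMap.exact_subtype_mkQ _)
    rw [h1, h2]
    congr 1
    · exact ih
    · rw [Module.length_eq_one R (M ⧸ N), ((Submodule.Quotient.restrictScalarsEquiv k N)).length_eq]
      obtain ⟨I, hI, ⟨e⟩⟩ := isSimpleModule_iff_quot_maximal.1 hs
      have hIm : I = maximalIdeal R := IsLocalRing.eq_maximalIdeal hI
      subst hIm
      rw [(e.restrictScalars k).length_eq]
      let f : k →ₗ[k] (R ⧸ maximalIdeal R) :=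
        (Algebra.linearMap k (R ⧸ maximalIdeal R))
      have hf : Function.Bijective f := by
        refine ⟨?_, hk⟩
        exact (algebraMap k (ResidueField R)).injective
      rw [← (LinearEquiv.ofBijective f hf).length_eq, Module.length_eq_finrank,
        Module.finrank_self, Nat.cast_one]

theorem length_eq_finrank {k : Type u} [Field k] {R : Type v} [CommRing R]
    [IsLocalRing R] [Algebra k R]
    (hk : Function.Surjective (algebraMap k (ResidueField R))) {M : Type w} [AddCommGroup M]
    [Module R M] [Module k M] [IsScalarTower k R M] [Module.Finite k M] :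
    Module.length R M = Module.finrank k M := by
  have h1 : Module.length k M = Module.finrank k M := Module.length_eq_finrank k M
  have h2 : IsFiniteLength R M := by
    rw [← Module.length_ne_top_iff]
    have h3 := Submodule.length_le_length_restrictScalars (R := R) (M := M) k ⊤
    rw [Module.length_top, Submodule.restrictScalars_top, Module.length_top, h1] at h3
    exact ne_top_of_le_ne_top (ENat.coe_ne_top _) h3
  rw [← h1, length_eq_of_isFiniteLength hk h2]

end Q43.NH
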