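import Pool.Agent.Q43.NH.Gen
import Pool.Agent.Q43.KM.Basis

/-! The plane and the line glued at the origin. -/

set_option autoImplicit false

noncomputable section

namespace Q43.NH

open IsLocalRing MvPowerSeries

abbrev A := MvPowerSeries (Fin 2) ℚ
abbrev B := MvPowerSeries (Fin 1) ℚ

/-- Pairs of power series in two variables and in one variable with the same constant term. -/
def Rg : Subalgebra ℚ (A × B) where
  carrier := {p | constantCoeff p.1 = constantCoeff p.2}
  mul_mem' := by
    intro a b ha hb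
    simp only [Set.mem_ofPred_eq, Prod.fst_mul, Prod.snd_mul, map_mul] at *
    rw [ha, hb]
  add_mem' := by
    intro a b ha hb
    simp only [Set.mem_ofPred_eq, Prod.fst_add, Prod.snd_add, map_add] at *
    rw [ha, hb]
  algebraMap_mem' := by
    intro c
    simp only [Set.mem_ofPred_eq, Prod.algebraMap_apply]
    rw [MvPowerSeries.algebraMap_apply, MvPowerSeries.algebraMap_apply, constantCoeff_C,
      constantCoeff_C]

theorem mem_Rg (p : A × B) : p ∈ Rg ↔ constantCoeff p.1 = constantCoeff p.2 := Iff.rfl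

/-- projection to the plane -/
def pA : Rg →+* A := (RingHom.fst A B).comp Rg.val.toRingHom
/-- projection to the line -/
def pB : Rg →+* B := (RingHom.snd A B).comp Rg.val.toRingHom

theorem pA_apply (r : Rg) : pA r = r.1.1 := rfl
theorem pB_apply (r : Rg) : pB r = r.1.2 := rfl

theorem ext' {r s : Rg} (h1 : pA r = pA s) (h2 : pB r = pB s) : r = s :=
  Subtype.ext (Prod.ext h1 h2)

theorem const_eq (r : Rg) : constantCoeff (pA r) = constantCoeff (pB r) := r.2

/-- the element with given components -/
def mk' (f : A) (g : B) (h : constantCoeff f = constantCoeff g) : Rg := ⟨(f, g), h⟩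

@[simp] theorem pA_mk' (f : A) (g : B) (h : constantCoeff f = constantCoeff g) :
    pA (mk' f g h) = f := rfl
@[simp] theorem pB_mk' (f : A) (g : B) (h : constantCoeff f = constantCoeff g) :
    pB (mk' f g h) = g := rfl

theorem pA_surj : Function.Surjective pA := fun f =>
  ⟨mk' f (C (constantCoeff f)) (by rw [constantCoeff_C]), rfl⟩
theorem pB_surj : Function.Surjective pB := fun g =>
  ⟨mk' (C (constantCoeff g)) g (by rw [constantCoeff_C]), rfl⟩

instance : IsNoetherianRing Rg :=
  isNoetherianRing_of_pair pA pB pA_surj pB_surj (fun r h1 h2 =>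
    ext' (by rw [h1, map_zero]) (by rw [h2, map_zero]))

/-- the residue map -/
def ε : Rg →+* ℚ := (constantCoeff (σ := Fin 2) (R := ℚ)).comp pA

theorem ε_apply (r : Rg) : ε r = constantCoeff (pA r) := rfl
theorem ε_apply' (r : Rg) : ε r = constantCoeff (pB r) := const_eq r

theorem isUnit_iff (r : Rg) : IsUnit r ↔ ε r ≠ 0 := by
  constructor
  · intro h
    exact (h.map ε).ne_zero
  · intro h
    have h1 : constantCoeff (pA r) ≠ 0 := h
    have h2 : constantCoeff (pB r) ≠ 0 := by rw [← ε_apply']; exact h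
    refine IsUnit.of_mul_eq_one (mk' (pA r)⁻¹ (pB r)⁻¹ ?_) ?_
    · rw [constantCoeff_inv, constantCoeff_inv, const_eq]
    · apply ext'
      · rw [map_mul, pA_mk', MvPowerSeries.mul_inv_cancel _ h1, map_one]
      · rw [map_mul, pB_mk', MvPowerSeries.mul_inv_cancel _ h2, map_one]

instance : IsLocalHom ε := ⟨fun r hr => (isUnit_iff r).2 hr.ne_zero⟩

instance : IsLocalRing Rg := RingHom.domain_isLocalRing ε

theorem mem_max (r : Rg) : r ∈ maximalIdeal Rg ↔ ε r = 0 := by
  rw [IsLocalRing.mem_maximalIdeal, mem_nonunits_iff, isUnit_iff, not_not]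

theorem residue_surj : Function.Surjective (algebraMap ℚ (ResidueField Rg)) := by
  intro y
  obtain ⟨r, rfl⟩ := IsLocalRing.residue_surjective y
  refine ⟨ε r, ?_⟩
  have h1 : algebraMap ℚ (ResidueField Rg) (ε r) = residue Rg (algebraMap ℚ Rg (ε r)) := rfl
  rw [h1, ← sub_eq_zero, ← map_sub, residue_eq_zero_iff, mem_max, map_sub]
  have h2 : ε (algebraMap ℚ Rg (ε r)) = ε r := by
    rw [ε_apply]
    change constantCoeff (algebraMap ℚ A (ε r)) = _
    rw [MvPowerSeries.algebraMap_apply, constantCoeff_C]
    rfl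
  rw [h2, sub_self]

/-- The ideal of pairs whose components have order at least `n`. -/
def J (n : ℕ) : Ideal Rg where
  carrier := {r | (n : ℕ∞) ≤ order (pA r) ∧ (n : ℕ∞) ≤ order (pB r)}
  add_mem' := by
    intro a b ha hb
    rw [Set.mem_ofPred_eq, map_add, map_add]
    exact ⟨Q43.KM.le_add_order ha.1 hb.1, Q43.KM.le_add_order ha.2 hb.2⟩
  zero_mem' := by
    rw [Set.mem_ofPred_eq, map_zero, map_zero, order_zero, order_zero]
    exact ⟨le_top, le_top⟩
  smul_mem' := by
    intro c r hr
    rw [Set.mem_ofPred_eq, smul_eq_mul, map_mul, map_mul]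
    exact ⟨le_trans (le_trans hr.1 le_add_self) le_order_mul,
      le_trans (le_trans hr.2 le_add_self) le_order_mul⟩

theorem mem_J {n : ℕ} {r : Rg} :
    r ∈ J n ↔ (n : ℕ∞) ≤ order (pA r) ∧ (n : ℕ∞) ≤ order (pB r) := Iff.rfl

theorem max_le_J : maximalIdeal Rg ≤ J 1 := by
  intro r hr
  rw [mem_max] at hr
  rw [mem_J, Nat.cast_one, one_le_order_iff_constCoeff_eq_zero,
    one_le_order_iff_constCoeff_eq_zero]
  exact ⟨hr, by rw [← ε_apply']; exact hr⟩

theorem J_mul (a b : ℕ) : J a * J b ≤ J (a + b) := by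
  rw [Ideal.mul_le]
  intro r hr s hs
  rw [mem_J, map_mul, map_mul]
  exact ⟨Q43.KM.le_mul_order hr.1 hs.1, Q43.KM.le_mul_order hr.2 hs.2⟩

theorem J_zero : J 0 = ⊤ := by
  rw [Ideal.eq_top_iff_one, mem_J]
  simp

theorem pow_le_J (n : ℕ) : maximalIdeal Rg ^ n ≤ J n := by
  induction n with
  | zero => rw [J_zero]; exact le_top
  | succ n ih =>
    rw [pow_succ]
    exact (Ideal.mul_mono ih max_le_J).trans (J_mul n 1)

/-- an element supported on the plane -/
def inA (f : A) (h : constantCoeff f = 0) : Rg := mk' f 0 (by rw [h, map_zero])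
/-- an element supported on the line -/
def inB (g : B) (h : constantCoeff g = 0) : Rg := mk' 0 g (by rw [h, map_zero])

theorem const_of_order {σ : Type} {n : ℕ} (hn : 1 ≤ n) {f : MvPowerSeries σ ℚ}
    (h : (n : ℕ∞) ≤ order f) : constantCoeff f = 0 := by
  rw [← one_le_order_iff_constCoeff_eq_zero]
  exact le_trans (by exact_mod_cast hn) h

theorem inA_mem (n : ℕ) : ∀ (f : A) (h : constantCoeff f = 0), ((n + 1 : ℕ) : ℕ∞) ≤ order f →
    inA f h ∈ maximalIdeal Rg ^ (n + 1) := by
  induction n with
  | zero =>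
    intro f h _
    rw [zero_add, pow_one, mem_max]
    exact h
  | succ n ih =>
    intro f h hf
    obtain ⟨q, hq, hqo⟩ := Q43.KM.split_vars (n + 1) f hf
    have hq0 : ∀ i, constantCoeff (q i) = 0 := fun i => const_of_order (by omega) (hqo i)
    have h1 : inA f h = ∑ i, inA (X i) (constantCoeff_X i) * inA (q i) (hq0 i) := by
      apply ext'
      · rw [map_sum]
        simp only [map_mul]
        exact hq
      · rw [map_sum]
        simp only [map_mul]
        change (0 : B) = ∑ i, (0 : B) * 0
        simp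
    rw [h1, pow_succ']
    refine Ideal.sum_mem _ (fun i _ => Ideal.mul_mem_mul ?_ (ih _ _ (hqo i)))
    rw [mem_max]
    exact constantCoeff_X i

theorem inB_mem (n : ℕ) : ∀ (f : B) (h : constantCoeff f = 0), ((n + 1 : ℕ) : ℕ∞) ≤ order f →
    inB f h ∈ maximalIdeal Rg ^ (n + 1) := by
  induction n with
  | zero =>
    intro f h _
    rw [zero_add, pow_one, mem_max]
    change constantCoeff (0 : A) = 0
    rw [map_zero]
  | succ n ih =>
    intro f h hf
    obtain ⟨q, hq, hqo⟩ := Q43.KM.split_vars (n + 1) f hf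
    have hq0 : ∀ i, constantCoeff (q i) = 0 := fun i => const_of_order (by omega) (hqo i)
    have h1 : inB f h = ∑ i, inB (X i) (constantCoeff_X i) * inB (q i) (hq0 i) := by
      apply ext'
      · rw [map_sum]
        simp only [map_mul]
        change (0 : A) = ∑ i, (0 : A) * 0
        simp
      · rw [map_sum]
        simp only [map_mul]
        exact hq
    rw [h1, pow_succ']
    refine Ideal.sum_mem _ (fun i _ => Ideal.mul_mem_mul ?_ (ih _ _ (hqo i)))
    rw [mem_max]
    change constantCoeff (0 : A) = 0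
    rw [map_zero]

theorem J_eq_pow (n : ℕ) : J n = maximalIdeal Rg ^ n := by
  refine le_antisymm ?_ (pow_le_J n)
  rcases n with _ | n
  · rw [pow_zero, Ideal.one_eq_top]; exact le_top
  · intro r hr
    have hA : constantCoeff (pA r) = 0 := const_of_order (by omega) hr.1
    have hB : constantCoeff (pB r) = 0 := const_of_order (by omega) hr.2
    have : r = inA (pA r) hA + inB (pB r) hB := by
      apply ext'
      · rw [map_add]
        change _ = pA r + 0
        rw [add_zero]
      · rw [map_add]
        change _ = 0 + pB r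
        rw [zero_add]
    rw [this]
    exact Ideal.add_mem _ (inA_mem n _ _ hr.1) (inB_mem n _ _ hr.2)

end Q43.NH
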