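import Pool.Agent.Q43.NH.Glue

/-! The first normal Hilbert coefficient of the plane and the line glued at the origin. -/

set_option autoImplicit false

noncomputable section

namespace Q43.NH

open IsLocalRing MvPowerSeries

theorem order_pow' {σ : Type} (f : MvPowerSeries σ ℚ) (n : ℕ) : order (f ^ n) = n • order f := by
  induction n with
  | zero =>
    rw [pow_zero, zero_smul]
    exact weightedOrder_one _
  | succ n ih => rw [pow_succ, order_mul, ih, succ_nsmul]

/-- Power series which are integral over the `n`-th power of the maximal ideal have order at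
least `n`. -/
theorem order_of_integral {g : ℕ} (f : MvPowerSeries (Fin g) ℚ) (n k : ℕ)
    (b : ℕ → MvPowerSeries (Fin g) ℚ) (hb : ∀ j, ((n * j : ℕ) : ℕ∞) ≤ order (b j))
    (h : f ^ k + ∑ j ∈ Finset.range k, b (k - j) * f ^ j = 0) : (n : ℕ∞) ≤ order f := by
  by_contra hcon
  rw [not_le] at hcon
  have hfin : order f ≠ ⊤ := ne_top_of_lt hcon
  obtain ⟨s, hs⟩ := ENat.ne_top_iff_exists.1 hfin
  rw [← hs] at hcon
  have hsn : s < n := by exact_mod_cast hcon
  have h1 : order (f ^ k) = ((k * s : ℕ) : ℕ∞) := by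
    rw [order_pow', ← hs]; simp
  have h2 : ((k * s + 1 : ℕ) : ℕ∞) ≤ order (∑ j ∈ Finset.range k, b (k - j) * f ^ j) := by
    apply Q43.KM.le_sum_order
    intro j hj
    rw [Finset.mem_range] at hj
    have h3 : ((j * s : ℕ) : ℕ∞) ≤ order (f ^ j) := by
      rw [order_pow', ← hs]; simp
    refine le_trans ?_ (Q43.KM.le_mul_order (hb (k - j)) h3)
    have : k * s + 1 ≤ n * (k - j) + j * s := by
      obtain ⟨t, rfl⟩ := Nat.exists_eq_add_of_lt hj
      obtain ⟨u, rfl⟩ := Nat.exists_eq_add_of_lt hsn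
      have e : j + t + 1 - j = t + 1 := by omega
      rw [e]
      nlinarith [Nat.zero_le (t * u)]
    exact_mod_cast this
  have h4 : f ^ k = - ∑ j ∈ Finset.range k, b (k - j) * f ^ j := eq_neg_of_add_eq_zero_left h
  rw [h4, order_neg] at h1
  rw [h1] at h2
  have : k * s + 1 ≤ k * s := by exact_mod_cast h2
  omega

theorem mem_pow_iff_integral (n : ℕ) (x : Rg) :
    x ∈ maximalIdeal Rg ^ n ↔
      ∃ k : ℕ, 0 < k ∧ ∃ a : ℕ → Rg, (∀ j, a j ∈ (maximalIdeal Rg ^ n) ^ j) ∧
        x ^ k + ∑ j ∈ Finset.range k, a (k - j) * x ^ j = 0 := by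
  constructor
  · intro hx
    refine ⟨1, Nat.one_pos, fun j => if j = 1 then -x else 0, ?_, ?_⟩
    · intro j
      dsimp only
      split_ifs with h
      · rw [h, pow_one]; exact (Ideal.neg_mem_iff _).2 hx
      · exact Ideal.zero_mem _
    · simp
  · rintro ⟨k, _, a, ha, h⟩
    rw [← J_eq_pow, mem_J]
    have ha' : ∀ j, a j ∈ J (n * j) := by
      intro j
      rw [J_eq_pow, pow_mul]
      exact ha j
    constructor
    · refine order_of_integral (pA x) n k (fun j => pA (a j)) (fun j => (ha' j).1) ?_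
      have := congrArg pA h
      simpa only [map_add, map_pow, map_sum, map_mul, map_zero] using this
    · refine order_of_integral (pB x) n k (fun j => pB (a j)) (fun j => (ha' j).2) ?_
      have := congrArg pB h
      simpa only [map_add, map_pow, map_sum, map_mul, map_zero] using this

theorem le_order_of_sq {g : ℕ} (f : MvPowerSeries (Fin g) ℚ) (n : ℕ)
    (h : ((2 * n : ℕ) : ℕ∞) ≤ order (f * f)) : (n : ℕ∞) ≤ order f := by
  by_contra hcon
  rw [not_le] at hcon
  have hfin : order f ≠ ⊤ := ne_top_of_lt hcon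
  obtain ⟨s, hs⟩ := ENat.ne_top_iff_exists.1 hfin
  rw [order_mul, ← hs] at h
  rw [← hs] at hcon
  have h1 : s < n := by exact_mod_cast hcon
  have h2 : 2 * n ≤ s + s := by exact_mod_cast h
  omega

theorem reduced : IsReduced (AdicCompletion (maximalIdeal Rg) Rg) := by
  refine reduced_completion _ (fun n r hr => ?_)
  rw [← J_eq_pow, mem_J] at hr ⊢
  rw [map_mul, map_mul] at hr
  exact ⟨le_order_of_sq _ n hr.1, le_order_of_sq _ n hr.2⟩

theorem dim_lower : (2 : WithBot ℕ∞) ≤ ringKrullDim Rg := by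
  have h0 : (0 : WithBot ℕ∞) ≤ ringKrullDim (MvPowerSeries (Fin 0) ℚ) :=
    ringKrullDim_nonneg_of_nontrivial
  have step : ∀ n : ℕ, (n : WithBot ℕ∞) ≤ ringKrullDim (MvPowerSeries (Fin n) ℚ) := by
    intro n
    induction n with
    | zero => exact_mod_cast h0
    | succ n ih =>
      rw [ringKrullDim_eq_of_ringEquiv (finSuccEquiv ℚ n).toRingEquiv]
      refine le_trans ?_ ringKrullDim_succ_le_ringKrullDim_powerseries
      push_cast
      exact add_le_add_left ih 1
  exact le_trans (step 2) (ringKrullDim_le_of_surjective pA pA_surj)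

/-- first parameter -/
def e1 : Rg := mk' (X 0) (X 0) (by rw [constantCoeff_X, constantCoeff_X])
/-- second parameter -/
def e2 : Rg := inA (X 1) (constantCoeff_X 1)

theorem max_le_of_prime (P : Ideal Rg) [P.IsPrime] (h1 : e1 ∈ P) (h2 : e2 ∈ P) :
    maximalIdeal Rg ≤ P := by
  have h3 : inA (X 0) (constantCoeff_X 0) ∈ P := by
    have h : inA (X 0) (constantCoeff_X 0) * inA (X 0) (constantCoeff_X 0) ∈ P := by
      have e : inA (X 0) (constantCoeff_X 0) * inA (X 0) (constantCoeff_X 0)
          = inA (X 0) (constantCoeff_X 0) * e1 := by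
        apply ext'
        · rfl
        · rw [map_mul, map_mul]
          change (0 : B) * 0 = 0 * X 0
          rw [zero_mul, zero_mul]
      rw [e]
      exact P.mul_mem_left _ h1
    exact (Ideal.IsPrime.mem_or_mem ‹_› h).elim id id
  have h4 : inB (X 0) (constantCoeff_X 0) ∈ P := by
    have e : inB (X 0) (constantCoeff_X 0) = e1 - inA (X 0) (constantCoeff_X 0) := by
      apply ext'
      · rw [map_sub]
        change (0 : A) = X 0 - X 0
        rw [sub_self]
      · rw [map_sub]
        change (X 0 : B) = X 0 - 0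
        rw [sub_zero]
    rw [e]
    exact P.sub_mem h1 h3
  intro r hr
  have hr1 : r ∈ J 1 := by rw [J_eq_pow, pow_one]; exact hr
  obtain ⟨q, hq, -⟩ := Q43.KM.split_vars 0 (pA r) hr1.1
  obtain ⟨u, hu, -⟩ := Q43.KM.split_vars 0 (pB r) hr1.2
  obtain ⟨q0, hq0⟩ := pA_surj (q 0)
  obtain ⟨q1, hq1⟩ := pA_surj (q 1)
  obtain ⟨u0, hu0⟩ := pB_surj (u 0)
  have : r = inA (X 0) (constantCoeff_X 0) * q0 + e2 * q1 + inB (X 0) (constantCoeff_X 0) * u0 := by
    apply ext'
    · rw [map_add, map_add, map_mul, map_mul, map_mul, hq0, hq1, hq, Fin.sum_univ_two]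
      change _ = X 0 * q 0 + X 1 * q 1 + 0 * pA u0
      rw [zero_mul, add_zero]
    · rw [map_add, map_add, map_mul, map_mul, map_mul, hu0, hu, Fin.sum_univ_one]
      change _ = 0 * pB q0 + 0 * pB q1 + X 0 * u 0
      rw [zero_mul, zero_mul, zero_add, zero_add]
  rw [this]
  exact P.add_mem (P.add_mem (P.mul_mem_right _ h3) (P.mul_mem_right _ h2))
    (P.mul_mem_right _ h4)

theorem dim_upper : ringKrullDim Rg ≤ 2 := by
  rw [← IsLocalRing.maximalIdeal_height_eq_ringKrullDim]
  have h1 : maximalIdeal Rg ∈ (Ideal.span {e1, e2}).minimalPrimes := by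
    refine ⟨⟨inferInstance, ?_⟩, ?_⟩
    · rw [Ideal.span_le]
      rintro x (rfl | rfl)
      · rw [SetLike.mem_coe, mem_max]
        exact constantCoeff_X 0
      · rw [SetLike.mem_coe, mem_max]
        exact constantCoeff_X 1
    · rintro P ⟨hP, hle⟩ -
      exact max_le_of_prime P (hle (Ideal.subset_span (by simp))) (hle (Ideal.subset_span (by simp)))
  have h2 := Ideal.height_le_card_of_mem_minimalPrimes_span (Set.toFinite {e1, e2}) h1
  have h3 : ({e1, e2} : Set Rg).ncard ≤ 2 := Set.ncard_insert_le _ _ |>.trans (by simp)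
  have h4 : (maximalIdeal Rg).height ≤ 2 := h2.trans (by exact_mod_cast h3)
  exact WithBot.coe_le_coe.2 h4

theorem dim_eq : ringKrullDim Rg = ((2 : ℕ) : WithBot ℕ∞) := le_antisymm dim_upper dim_lower

/-- exponents in the plane of degree at most `n` -/
abbrev Ex (n : ℕ) := (k : Fin (n + 1)) × Fin (k.1 + 1)

/-- the exponent `(i, k - i)` -/
def expo {n : ℕ} (p : Ex n) : Fin 2 →₀ ℕ :=
  Finsupp.single 0 p.2.1 + Finsupp.single 1 (p.1.1 - p.2.1)

theorem degree_expo {n : ℕ} (p : Ex n) : (expo p).degree = p.1.1 := by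
  have := p.2.2
  rw [expo, map_add, Finsupp.degree_single, Finsupp.degree_single]
  omega

theorem expo_zero {n : ℕ} (p : Ex n) : expo p 0 = p.2.1 := by
  simp [expo]
theorem expo_one {n : ℕ} (p : Ex n) : expo p 1 = p.1.1 - p.2.1 := by
  simp [expo]

theorem expo_inj {n : ℕ} : Function.Injective (expo (n := n)) := by
  rintro ⟨⟨k, hk⟩, ⟨i, hi⟩⟩ ⟨⟨l, hl⟩, ⟨j, hj⟩⟩ h
  have h1 := congrArg Finsupp.degree h
  rw [degree_expo, degree_expo] at h1
  have h2 := DFunLike.congr_fun h 0
  rw [expo_zero, expo_zero] at h2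
  simp only at h1 h2
  subst h1
  subst h2
  rfl

theorem expo_surj {n : ℕ} (m : Fin 2 →₀ ℕ) (hm : m.degree < n + 1) : ∃ p : Ex n, expo p = m := by
  have hd : m.degree = m 0 + m 1 := by
    rw [Finsupp.degree_eq_sum, Fin.sum_univ_two]
  refine ⟨⟨⟨m.degree, hm⟩, ⟨m 0, by simp only; omega⟩⟩, ?_⟩
  ext i
  fin_cases i
  · exact expo_zero _
  · refine (expo_one _).trans ?_
    simp only
    rw [hd]
    simp

/-- the coefficients of low degree -/
def T (n : ℕ) : Rg →ₗ[ℚ] (Ex n → ℚ) × (Fin n → ℚ) where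
  toFun r := (fun p => coeff (expo p) (pA r), fun j => coeff (Finsupp.single 0 (j.1 + 1)) (pB r))
  map_add' r s := by
    ext <;> simp
  map_smul' c r := by
    ext
    · change coeff _ (c • pA r) = c • coeff _ (pA r)
      rw [map_smul]
    · change coeff _ (c • pB r) = c • coeff _ (pB r)
      rw [map_smul]

theorem T_surj (n : ℕ) : Function.Surjective (T n) := by
  classical
  rintro ⟨a, b⟩
  let f : A := fun m => if h : ∃ p : Ex n, expo p = m then a h.choose else 0
  have hf : ∀ p : Ex n, coeff (expo p) f = a p := by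
    intro p
    change (if h : ∃ q : Ex n, expo q = expo p then a h.choose else 0) = _
    have h : ∃ q : Ex n, expo q = expo p := ⟨p, rfl⟩
    rw [dif_pos h]
    congr 1
    exact expo_inj h.choose_spec
  let g : B := fun m => if m = 0 then constantCoeff f else
    if h : ∃ j : Fin n, Finsupp.single 0 (j.1 + 1) = m then b h.choose else 0
  have hg : ∀ j : Fin n, coeff (Finsupp.single 0 (j.1 + 1)) g = b j := by
    intro j
    change (if Finsupp.single (0 : Fin 1) (j.1 + 1) = 0 then constantCoeff f else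
      if h : ∃ i : Fin n, Finsupp.single 0 (i.1 + 1) = Finsupp.single (0 : Fin 1) (j.1 + 1)
        then b h.choose else 0) = _
    rw [if_neg (by simp)]
    have h : ∃ i : Fin n, Finsupp.single 0 (i.1 + 1) = Finsupp.single (0 : Fin 1) (j.1 + 1) :=
      ⟨j, rfl⟩
    rw [dif_pos h]
    congr 1
    have := Finsupp.single_injective 0 h.choose_spec
    exact Fin.ext (by omega)
  have hc : constantCoeff f = constantCoeff g := by
    change _ = g 0
    change _ = if (0 : Fin 1 →₀ ℕ) = 0 then constantCoeff f else _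
    rw [if_pos rfl]
  refine ⟨mk' f g hc, ?_⟩
  ext
  · exact hf _
  · exact hg _

theorem T_ker (n : ℕ) (r : Rg) : T n r = 0 ↔ r ∈ J (n + 1) := by
  constructor
  · intro h
    have h1 : ∀ p : Ex n, coeff (expo p) (pA r) = 0 := fun p => congrFun (congrArg Prod.fst h) p
    have h2 : ∀ j : Fin n, coeff (Finsupp.single 0 (j.1 + 1)) (pB r) = 0 :=
      fun j => congrFun (congrArg Prod.snd h) j
    refine ⟨?_, ?_⟩
    · refine nat_le_order (fun m hm => ?_)
      obtain ⟨p, rfl⟩ := expo_surj m hm
      exact h1 p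
    · refine nat_le_order (fun m hm => ?_)
      have hm' : m = Finsupp.single 0 (m 0) := by
        ext; simp
      rw [Finsupp.degree_eq_sum, Fin.sum_univ_one] at hm
      rw [hm']
      rcases Nat.eq_zero_or_pos (m 0) with h0 | h0
      · rw [h0, Finsupp.single_zero]
        have : constantCoeff (pA r) = 0 := by
          have := h1 ⟨0, 0⟩
          have e : expo (⟨0, 0⟩ : Ex n) = 0 := by
            ext i; fin_cases i
            · exact expo_zero _
            · exact expo_one _
          rwa [e] at this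
        rw [const_eq] at this
        exact this
      · have := h2 ⟨m 0 - 1, by omega⟩
        simp only at this
        rwa [Nat.sub_add_cancel h0] at this
  · intro h
    ext
    · refine coeff_of_lt_order (lt_of_lt_of_le ?_ h.1)
      rw [degree_expo]
      rename_i p
      exact_mod_cast p.1.2
    · refine coeff_of_lt_order (lt_of_lt_of_le ?_ h.2)
      rw [Finsupp.degree_single]
      rename_i j
      exact_mod_cast (by omega : j.1 + 1 < n + 1)

theorem sum_succ (n : ℕ) : ∑ i ∈ Finset.range (n + 1), (i + 1) = (n + 2).choose 2 := by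
  induction n with
  | zero => rfl
  | succ n ih =>
    have h := Nat.choose_succ_succ' (n + 2) 1
    rw [Nat.choose_one_right, show 1 + 1 = 2 from rfl] at h
    rw [Finset.sum_range_succ, ih, h]
    omega

theorem length_J (n : ℕ) :
    Module.length Rg (Rg ⧸ J (n + 1)) = (((n + 2).choose 2 + n : ℕ) : ℕ∞) := by
  have hk : LinearMap.ker (T n) = (J (n + 1)).restrictScalars ℚ := by
    ext r
    rw [LinearMap.mem_ker, T_ker]
    rfl
  let e1 := (T n).quotKerEquivOfSurjective (T_surj n)
  let e2 : (Rg ⧸ LinearMap.ker (T n)) ≃ₗ[ℚ] (Rg ⧸ (J (n + 1)).restrictScalars ℚ) :=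
    Submodule.quotEquivOfEq _ _ hk
  let e3 := Submodule.Quotient.restrictScalarsEquiv ℚ (J (n + 1))
  let e : ((Ex n → ℚ) × (Fin n → ℚ)) ≃ₗ[ℚ] (Rg ⧸ J (n + 1)) := (e1.symm.trans e2).trans e3
  have hfin : Module.Finite ℚ (Rg ⧸ J (n + 1)) := Module.Finite.equiv e
  rw [length_eq_finrank residue_surj, ← e.finrank_eq]
  congr 1
  rw [Module.finrank_prod, Module.finrank_fintype_fun_eq_card, Module.finrank_fintype_fun_eq_card,
    Fintype.card_fin, Fintype.card_sigma]
  congr 1
  simp only [Fintype.card_fin]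
  rw [Fin.sum_univ_eq_sum_range (fun i => i + 1) (n + 1)]
  exact sum_succ n

theorem main :
    ¬ (∀ (R : Type) [CommRing R] [IsNoetherianRing R] [IsLocalRing R],
      IsReduced (AdicCompletion (IsLocalRing.maximalIdeal R) R) →
      ∀ (d : ℕ), ringKrullDim R = (d : WithBot ℕ∞) → 0 < d →
      ∀ (I : Ideal R), I.radical = IsLocalRing.maximalIdeal R →
      ∀ (Ibar : ℕ → Ideal R),
        (∀ (n : ℕ) (x : R), x ∈ Ibar n ↔
          ∃ k : ℕ, 0 < k ∧ ∃ a : ℕ → R, (∀ j, a j ∈ (I ^ n) ^ j) ∧
            x ^ k + ∑ j ∈ Finset.range k, a (k - j) * x ^ j = 0) →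
      ∀ (e : ℕ → ℚ),
        (∀ᶠ n in Filter.atTop, ∃ m : ℕ,
          Module.length R (R ⧸ Ibar (n + 1)) = (m : ℕ∞) ∧
          (m : ℚ) = ∑ i ∈ Finset.range (d + 1),
            (-1 : ℚ) ^ i * e i * (((n + d - i).choose (d - i) : ℕ) : ℚ)) →
        0 ≤ e 1) := by
  intro H
  have h := H Rg reduced 2 dim_eq (by norm_num) (maximalIdeal Rg)
    (Ideal.IsPrime.radical inferInstance) (fun n => J n)
    (fun n x => by rw [J_eq_pow]; exact mem_pow_iff_integral n x)
    (fun i => if i = 0 then 1 else -1) (Filter.Eventually.of_forall (fun n =>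
      ⟨(n + 2).choose 2 + n, length_J n, ?_⟩))
  · norm_num at h
  · rw [Finset.sum_range_succ, Finset.sum_range_succ, Finset.sum_range_one]
    simp
    ring

end Q43.NH
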